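import Pool.Agent.Helper93.FZ.St

set_option autoImplicit false

namespace Pool.Agent.Helper53.FZ

open Finset
open Pool.Agent.Helper93.FZ

private lemma pth_sum {n : ℕ} (f : Fin n → ℝ) (t a : ℝ) (h : ∑ c, f c = n - a) :
    ∑ c, (1 - t * (1 - f c)) = n - t * a := by
  have h1 : ∑ c, (1 - t * (1 - f c)) = ∑ c, ((1 - t) + t * f c) :=
    Finset.sum_congr rfl (fun c _ => by ring)
  rw [h1, Finset.sum_add_distrib, ← Finset.mul_sum, h]
  simp only [Finset.sum_const, Finset.card_univ, Fintype.card_fin, nsmul_eq_mul]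
  ring

private lemma pth_wt {n : ℕ} {k : ℝ} {A B C : Fin n → Fin n → ℝ} {u v w : Fin n → ℝ}
    (h : Wt n k A B C u v w) (t : ℝ) (h0 : 0 ≤ t) (h1 : t ≤ 1) :
    Wt n (t * k) (pth A t) (pth B t) (pth C t) (fun i => t * u i) (fun i => t * v i)
      (fun i => t * w i) where
  A0 := fun i j => by
    have := h.A0 i j; have := h.A1 i j
    unfold pth; nlinarith
  B0 := fun i j => by
    have := h.B0 i j; have := h.B1 i j
    unfold pth; nlinarith
  C0 := fun i j => by
    have := h.C0 i j; have := h.C1 i j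
    unfold pth; nlinarith
  A1 := fun i j => by
    have := h.A0 i j; have := h.A1 i j
    unfold pth; nlinarith
  B1 := fun i j => by
    have := h.B0 i j; have := h.B1 i j
    unfold pth; nlinarith
  C1 := fun i j => by
    have := h.C0 i j; have := h.C1 i j
    unfold pth; nlinarith
  rA := fun r => by unfold pth; exact pth_sum _ _ _ (h.rA r)
  rC := fun r => by unfold pth; exact pth_sum (fun s => C s r) _ _ (h.rC r)
  cB := fun c => by unfold pth; exact pth_sum _ _ _ (h.cB c)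
  cA := fun c => by unfold pth; exact pth_sum (fun r => A r c) _ _ (h.cA c)
  sC := fun s => by unfold pth; exact pth_sum _ _ _ (h.sC s)
  sB := fun s => by unfold pth; exact pth_sum (fun c => B c s) _ _ (h.sB s)
  uk := fun r => mul_le_mul_of_nonneg_left (h.uk r) h0
  vk := fun r => mul_le_mul_of_nonneg_left (h.vk r) h0
  wk := fun r => mul_le_mul_of_nonneg_left (h.wk r) h0

private lemma pth_pos {n : ℕ} {A : Fin n → Fin n → ℝ} (h0 : ∀ i j, 0 ≤ A i j) (t : ℝ) (ht0 : 0 ≤ t)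
    (ht1 : t < 1) (i j : Fin n) : 0 < pth A t i j := by
  have := h0 i j
  unfold pth; nlinarith

private lemma pth_cont {n : ℕ} (A : Fin n → Fin n → ℝ) (i j : Fin n) :
    Continuous fun t : ℝ => pth A t i j := by
  unfold pth; fun_prop

/-- At constant weights `1` the vertex sums are `1/3`. -/
private lemma sol_one {n : ℕ} (hn : 0 < n) {A B C X Y Z : Fin n → Fin n → ℝ}
    (hA : ∀ i j, A i j = 1) (hB : ∀ i j, B i j = 1) (hC : ∀ i j, C i j = 1)
    (h : Sol A B C X Y Z) (r : Fin n) : ∑ c, A r c * X r c = 1 / 3 := by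
  have hnR : (0 : ℝ) < n := by exact_mod_cast hn
  have e1 : ∀ r c, (n : ℝ) * X r c + (∑ r', X r' c) + (∑ c', X r c') = 1 := by
    intro r c
    have h1 := h.eA r c
    have h2 := h.gC c
    have h3 := h.gR r
    simp only [hA, hB, hC, one_mul] at h1 h2 h3
    rw [Finset.sum_add_distrib, Finset.sum_add_distrib] at h1
    simp only [Finset.sum_const, Finset.card_univ, Fintype.card_fin, nsmul_eq_mul] at h1
    rw [← h2, h3]
    linarith
  set S : ℝ := ∑ r, ∑ c, X r c with hS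
  have e2 : ∀ r, 2 * (n : ℝ) * (∑ c, X r c) + S = n := by
    intro r
    have h1 : ∑ c, ((n : ℝ) * X r c + (∑ r', X r' c) + (∑ c', X r c')) = ∑ c : Fin n, (1 : ℝ) :=
      Finset.sum_congr rfl (fun c _ => e1 r c)
    rw [Finset.sum_add_distrib, Finset.sum_add_distrib, ← Finset.mul_sum, Finset.sum_comm] at h1
    simp only [Finset.sum_const, Finset.card_univ, Fintype.card_fin, nsmul_eq_mul, mul_one] at h1
    rw [hS]
    linarith
  have e3 : 3 * S = n := by
    have h1 : ∑ r, (2 * (n : ℝ) * (∑ c, X r c) + S) = ∑ r : Fin n, (n : ℝ) :=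
      Finset.sum_congr rfl (fun r _ => e2 r)
    rw [Finset.sum_add_distrib, ← Finset.mul_sum, ← hS] at h1
    simp only [Finset.sum_const, Finset.card_univ, Fintype.card_fin, nsmul_eq_mul] at h1
    have h2 : (n : ℝ) * (3 * S - n) = 0 := by linarith
    rcases mul_eq_zero.mp h2 with h3 | h3
    · exact absurd h3 hnR.ne'
    · linarith
  have e4 := e2 r
  have e5 : ∑ c, A r c * X r c = ∑ c, X r c :=
    Finset.sum_congr rfl (fun c _ => by rw [hA, one_mul])
  rw [e5]
  have h2 : (n : ℝ) * ((∑ c, X r c) - 1 / 3) = 0 := by linarith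
  rcases mul_eq_zero.mp h2 with h3 | h3
  · exact absurd h3 hnR.ne'
  · linarith

theorem hPTH : StPTH := by
  intro hINJ hGAU hCON _ hPSI hAPR n k A B C u v w hW hn h4k hPsi t0 ht0
  have hnR : (0 : ℝ) < n := by exact_mod_cast hn
  -- elementary facts
  have hu0 : ∀ r, 0 ≤ u r := by
    intro r
    have h1 : ∑ c, A r c ≤ ∑ c : Fin n, (1 : ℝ) := Finset.sum_le_sum (fun c _ => hW.A1 r c)
    simp only [Finset.sum_const, Finset.card_univ, Fintype.card_fin, nsmul_eq_mul, mul_one] at h1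
    have h2 := hW.rA r
    linarith
  have hk0 : 0 ≤ k := le_trans (hu0 ⟨0, hn⟩) (hW.uk ⟨0, hn⟩)
  have hkn : k ≤ n := by linarith
  have hH0 : 0 ≤ ∑ r, u r := Finset.sum_nonneg (fun r _ => hu0 r)
  have hHk : ∑ r, u r ≤ n * k := by
    have h1 : ∑ r, u r ≤ ∑ r : Fin n, k := Finset.sum_le_sum (fun r _ => hW.uk r)
    simp only [Finset.sum_const, Finset.card_univ, Fintype.card_fin, nsmul_eq_mul] at h1
    exact h1
  set P : ℝ := Psi n k (∑ r, u r) with hP
  have hPt : ∀ t : ℝ, 0 ≤ t → t ≤ 1 → P ≤ Psi n (t * k) (∑ r, t * u r) := by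
    intro t h0 h1
    rw [← Finset.mul_sum]
    exact hPSI n k _ t hnR hk0 hkn hH0 hHk h0 h1
  set δ : ℝ := P / (6 * (n : ℝ) ^ 4) with hδ
  have hδ0 : 0 < δ := by positivity
  -- the continuous family
  obtain ⟨X, Y, Z, cX, cY, cZ, hL⟩ := hCON hINJ n (pth A) (pth B) (pth C) (pth_cont A) (pth_cont B)
    (pth_cont C) (fun t ht i j => ⟨pth_pos hW.A0 t ht.1 ht.2 i j, pth_pos hW.B0 t ht.1 ht.2 i j,
      pth_pos hW.C0 t ht.1 ht.2 i j⟩)
  have hSol : ∀ t ∈ Set.Ico (0 : ℝ) 1, Sol (pth A t) (pth B t) (pth C t) (X t) (Y t) (Z t) := by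
    intro t ht
    obtain ⟨l1, l2, l3⟩ := hL t ht
    exact hGAU n (t * k) _ _ _ _ _ _ _ _ _ (pth_wt hW t ht.1 ht.2.le)
      (pth_pos hW.A0 t ht.1 ht.2) (pth_pos hW.B0 t ht.1 ht.2) (pth_pos hW.C0 t ht.1 ht.2) l1 l2 l3
  have hstep : ∀ t ∈ Set.Ico (0 : ℝ) 1,
      Bd (pth A t) (pth B t) (pth C t) (X t) (Y t) (Z t) (1 / 2) →
      Bd (pth A t) (pth B t) (pth C t) (X t) (Y t) (Z t) (1 / 2 - δ) := by
    intro t ht hb
    have hPt' := hPt t ht.1 ht.2.le
    have h4 : 4 * (t * k) < n := by nlinarith [ht.1, ht.2]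
    have h5 := hAPR n (t * k) _ _ _ _ _ _ _ _ _ (pth_wt hW t ht.1 ht.2.le) (hSol t ht) hn h4
      (lt_of_lt_of_le hPsi hPt') hb
    have h6 : 1 / 2 - Psi n (t * k) (∑ r, t * u r) / (6 * (n : ℝ) ^ 4) ≤ 1 / 2 - δ := by
      have : P / (6 * (n : ℝ) ^ 4) ≤ Psi n (t * k) (∑ r, t * u r) / (6 * (n : ℝ) ^ 4) := by
        gcongr
      linarith
    exact ⟨fun r => (h5.1 r).trans h6, fun r => (h5.2.1 r).trans h6, fun r => (h5.2.2 r).trans h6⟩
  -- clamp
  let p : ℝ → ℝ := fun t => max 0 (min t t0)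
  have hpc : Continuous p := by
    have : Continuous fun t : ℝ => max 0 (min t t0) := by fun_prop
    exact this
  have hpI : ∀ t, p t ∈ Set.Ico (0 : ℝ) 1 := fun t =>
    ⟨le_max_left _ _, max_lt zero_lt_one (lt_of_le_of_lt (min_le_right _ _) ht0.2)⟩
  have hp0 : p 0 = 0 := by
    show max 0 (min 0 t0) = 0
    rw [min_eq_left ht0.1, max_self]
  have hpt : p t0 = t0 := by
    show max 0 (min t0 t0) = t0
    rw [min_self, max_eq_right ht0.1]
  have cX' : ∀ i j, Continuous fun t => X (p t) i j := fun i j =>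
    (cX i j).comp_continuous hpc hpI
  have cY' : ∀ i j, Continuous fun t => Y (p t) i j := fun i j =>
    (cY i j).comp_continuous hpc hpI
  have cZ' : ∀ i j, Continuous fun t => Z (p t) i j := fun i j =>
    (cZ i j).comp_continuous hpc hpI
  have g1 : ∀ r, Continuous fun t => ∑ c, pth A (p t) r c * X (p t) r c := fun r =>
    continuous_finset_sum _ (fun c _ => ((pth_cont A r c).comp hpc).mul (cX' r c))
  have g2 : ∀ r, Continuous fun t => ∑ c, pth B (p t) r c * Y (p t) r c := fun r =>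
    continuous_finset_sum _ (fun c _ => ((pth_cont B r c).comp hpc).mul (cY' r c))
  have g3 : ∀ r, Continuous fun t => ∑ c, pth C (p t) r c * Z (p t) r c := fun r =>
    continuous_finset_sum _ (fun c _ => ((pth_cont C r c).comp hpc).mul (cZ' r c))
  let S : Set ℝ := {t | Bd (pth A (p t)) (pth B (p t)) (pth C (p t)) (X (p t)) (Y (p t)) (Z (p t))
    (1 / 2)}
  have hS1 : S = (⋂ r, {t | ∑ c, pth A (p t) r c * X (p t) r c ≤ 1 / 2}) ∩
      ((⋂ r, {t | ∑ c, pth B (p t) r c * Y (p t) r c ≤ 1 / 2}) ∩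
      (⋂ r, {t | ∑ c, pth C (p t) r c * Z (p t) r c ≤ 1 / 2})) := by
    ext t
    simp only [S, Bd, Set.mem_setOf_eq, Set.mem_inter_iff, Set.mem_iInter]
  have hS2 : S = (⋂ r, {t | ∑ c, pth A (p t) r c * X (p t) r c < 1 / 2}) ∩
      ((⋂ r, {t | ∑ c, pth B (p t) r c * Y (p t) r c < 1 / 2}) ∩
      (⋂ r, {t | ∑ c, pth C (p t) r c * Z (p t) r c < 1 / 2})) := by
    ext t
    simp only [Set.mem_setOf_eq, Set.mem_inter_iff, Set.mem_iInter]
    constructor
    · intro ht
      obtain ⟨b1, b2, b3⟩ := hstep (p t) (hpI t) ht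
      exact ⟨fun r => lt_of_le_of_lt (b1 r) (by linarith), fun r => lt_of_le_of_lt (b2 r)
        (by linarith), fun r => lt_of_le_of_lt (b3 r) (by linarith)⟩
    · rintro ⟨b1, b2, b3⟩
      exact ⟨fun r => (b1 r).le, fun r => (b2 r).le, fun r => (b3 r).le⟩
  have hclosed : IsClosed S := by
    rw [hS1]
    exact (isClosed_iInter fun r => isClosed_le (g1 r) continuous_const).inter
      ((isClosed_iInter fun r => isClosed_le (g2 r) continuous_const).inter
      (isClosed_iInter fun r => isClosed_le (g3 r) continuous_const))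
  have hopen : IsOpen S := by
    rw [hS2]
    exact (isOpen_iInter_of_finite fun r => isOpen_lt (g1 r) continuous_const).inter
      ((isOpen_iInter_of_finite fun r => isOpen_lt (g2 r) continuous_const).inter
      (isOpen_iInter_of_finite fun r => isOpen_lt (g3 r) continuous_const))
  have hne : S.Nonempty := by
    refine ⟨0, ?_⟩
    have h0 : (0 : ℝ) ∈ Set.Ico (0 : ℝ) 1 := ⟨le_refl _, zero_lt_one⟩
    have hs := hSol 0 h0
    have a1 : ∀ i j, pth A 0 i j = 1 := fun i j => by unfold pth; ring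
    have b1 : ∀ i j, pth B 0 i j = 1 := fun i j => by unfold pth; ring
    have c1 : ∀ i j, pth C 0 i j = 1 := fun i j => by unfold pth; ring
    show Bd (pth A (p 0)) (pth B (p 0)) (pth C (p 0)) (X (p 0)) (Y (p 0)) (Z (p 0)) (1 / 2)
    rw [hp0]
    refine ⟨fun r => ?_, fun r => ?_, fun r => ?_⟩
    · rw [sol_one hn a1 b1 c1 hs r]; norm_num
    · rw [sol_one hn b1 c1 a1 hs.rot r]; norm_num
    · rw [sol_one hn c1 a1 b1 hs.rot.rot r]; norm_num
  have huniv : S = Set.univ := IsClopen.eq_univ ⟨hclosed, hopen⟩ hne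
  have ht : t0 ∈ S := by rw [huniv]; trivial
  have ht' : Bd (pth A (p t0)) (pth B (p t0)) (pth C (p t0)) (X (p t0)) (Y (p t0)) (Z (p t0))
    (1 / 2) := ht
  rw [hpt] at ht'
  exact ⟨X t0, Y t0, Z t0, hSol t0 ht0, hstep t0 ht0 ht'⟩

end Pool.Agent.Helper53.FZ
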